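import Pool.Agent.H958.RL.Stm

/-!
# The lower bound up to `c = log n`
-/

set_option autoImplicit false

namespace Pool.Agent.H903.RL.LbAll

open Finset Filter Topology
open scoped Classical
open Pool.Agent.W830.RD (Om gle Pr Rlz)
open Pool.Agent.H958.RL

theorem Pr_mono {p : ℝ} {n : ℕ} {Q Q' : Finset (Fin n × Fin n) → Prop} (hp0 : 0 < p) (hp1 : p < 1)
    (h : ∀ E, Q E → Q' E) : Pr p n Q ≤ Pr p n Q' := by
  unfold Pr
  refine Finset.sum_le_sum_of_subset_of_nonneg ?_ ?_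
  · intro E hE
    rw [Finset.mem_filter] at hE ⊢
    exact ⟨hE.1, h E hE.2⟩
  · intro E _ _
    have : 0 < 1 - p := by linarith
    positivity

theorem main (h1 : S_LB) (h2 : S_RESTR) : S_LBALL := by
  intro ε hε hε2
  obtain ⟨c1, hc1, hLB⟩ := h1 (ε / 8) (by positivity) (by linarith)
  refine ⟨2 * c1, by linarith, fun η' hη' => ?_⟩
  obtain ⟨N1, hN1⟩ := hLB η' hη'
  refine ⟨max (max 4 ⌈8 / ε⌉₊) (max (2 * N1) ⌈Real.exp (8 / ε * Real.log 2)⌉₊),
    fun n hn c hc hcl => ?_⟩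
  have hn4 : 4 ≤ n := (le_max_left _ _).trans ((le_max_left _ _).trans hn)
  have hnε : (8 / ε : ℝ) ≤ n :=
    (Nat.le_ceil _).trans (by exact_mod_cast (le_max_right _ _).trans ((le_max_left _ _).trans hn))
  have hnN : 2 * N1 ≤ n := (le_max_left _ _).trans ((le_max_right _ _).trans hn)
  have hne : Real.exp (8 / ε * Real.log 2) ≤ n :=
    (Nat.le_ceil _).trans (by exact_mod_cast (le_max_right _ _).trans ((le_max_right _ _).trans hn))
  have hn4' : (4 : ℝ) ≤ n := by exact_mod_cast hn4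
  have hn0 : (0 : ℝ) < n := by linarith
  have hlog2 : 0 < Real.log 2 := Real.log_pos (by norm_num)
  have hlogn : 8 / ε * Real.log 2 ≤ Real.log n := (Real.le_log_iff_exp_le hn0).2 hne
  have hlogn' : Real.log 2 ≤ ε / 8 * Real.log n := by
    have := mul_le_mul_of_nonneg_left hlogn (show 0 ≤ ε / 8 by positivity)
    have e : ε / 8 * (8 / ε * Real.log 2) = Real.log 2 := by
      field_simp
    linarith
  obtain ⟨m, hm⟩ : ∃ m : ℕ, m = ⌊(1 - ε / 4) * n⌋₊ := ⟨_, rfl⟩
  have hm1 : (m : ℝ) ≤ (1 - ε / 4) * n := by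
    rw [hm]
    exact Nat.floor_le (mul_nonneg (by linarith) hn0.le)
  have hm2 : (1 - ε / 4) * n - 1 < m := by
    rw [hm]
    exact Nat.sub_one_lt_floor _
  have hmn : m ≤ n := by
    have : (m : ℝ) ≤ n := by nlinarith
    exact_mod_cast this
  have hmh : (n : ℝ) / 2 ≤ m := by nlinarith
  have hm0 : (0 : ℝ) < m := by linarith
  have hmN : N1 ≤ m := by
    have : (N1 : ℝ) ≤ m := by
      have h3 : (2 * (N1 : ℝ)) ≤ n := by exact_mod_cast hnN
      linarith
    exact_mod_cast this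
  have hc0 : 0 < c := by linarith
  have hcn : c < n := by
    have := Real.log_le_sub_one_of_pos hn0
    linarith
  have hp0 : 0 < c / n := div_pos hc0 hn0
  have hp1 : c / n < 1 := (div_lt_one hn0).2 hcn
  obtain ⟨c', hc'⟩ : ∃ c' : ℝ, c' = c / n * m := ⟨_, rfl⟩
  have hpc : c' / m = c / n := by
    rw [hc']
    field_simp
  have hnc : c / n * n = c := by field_simp
  have hp2 : c / n ≤ c * (ε / 8) := by
    rw [div_le_iff₀ hn0]
    have : 1 ≤ ε / 8 * n := by
      have h3 := mul_le_mul_of_nonneg_left hnε (show 0 ≤ ε / 8 by positivity)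
      have e : ε / 8 * (8 / ε) = 1 := by field_simp
      linarith
    nlinarith
  have hc'1 : c * (1 - ε / 4) - c / n ≤ c' := by
    rw [hc']
    have : c / n * ((1 - ε / 4) * n - 1) ≤ c / n * m := mul_le_mul_of_nonneg_left hm2.le hp0.le
    have e : c / n * ((1 - ε / 4) * n - 1) = (c / n * n) * (1 - ε / 4) - c / n := by ring
    rw [e, hnc] at this
    exact this
  have hc'2 : c' ≤ (1 - ε / 4) * c := by
    rw [hc']
    have : c / n * m ≤ c / n * ((1 - ε / 4) * n) := mul_le_mul_of_nonneg_left hm1 hp0.le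
    have e : c / n * ((1 - ε / 4) * n) = (1 - ε / 4) * (c / n * n) := by ring
    rw [e, hnc] at this
    exact this
  have hc'3 : c * (1 - 3 * ε / 8) ≤ c' := by nlinarith
  have hc'4 : c1 ≤ c' := by nlinarith
  have hlogm : Real.log n - Real.log 2 ≤ Real.log m := by
    rw [← Real.log_div hn0.ne' (by norm_num)]
    exact Real.log_le_log (by linarith) hmh
  have hc'5 : c' ≤ (1 - ε / 8) * Real.log m := by
    have h3 : (1 - ε / 4) * c ≤ (1 - ε / 4) * Real.log n :=
      mul_le_mul_of_nonneg_left hcl (by linarith)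
    have h4 : (1 - ε / 8) * (Real.log n - Real.log 2) ≤ (1 - ε / 8) * Real.log m :=
      mul_le_mul_of_nonneg_left hlogm (by linarith)
    have h5 : 0 ≤ ε / 8 * Real.log 2 := by positivity
    nlinarith
  have hexp : (1 - ε) * c ≤ (1 - ε / 8) * c' := by
    have h3 : (1 - ε / 8) * (c * (1 - 3 * ε / 8)) ≤ (1 - ε / 8) * c' :=
      mul_le_mul_of_nonneg_left hc'3 (by linarith)
    have h4 : (1 - ε) * c ≤ (1 - ε / 8) * (c * (1 - 3 * ε / 8)) := by
      have : (1 - ε) ≤ (1 - ε / 8) * (1 - 3 * ε / 8) := by nlinarith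
      nlinarith
    linarith
  calc Pr (c / n) n (fun E => ∃ k : ℕ, (k : ℝ) ≤ Real.exp ((1 - ε) * c) ∧ Rlz (gle E) k) ≤
      Pr (c / n) n (fun E => ∃ k ≤ ⌊Real.exp ((1 - ε) * c)⌋₊, Rlz (gle E) k) := by
        refine Pr_mono hp0 hp1 ?_
        rintro E ⟨k, hk, hkR⟩
        exact ⟨k, Nat.le_floor hk, hkR⟩
    _ ≤ Pr (c / n) m (fun E => ∃ k ≤ ⌊Real.exp ((1 - ε) * c)⌋₊, Rlz (gle E) k) :=
        h2 _ m n _ hp0 hp1 hmn
    _ ≤ Pr (c / n) m (fun E => ∃ k : ℕ, (k : ℝ) ≤ Real.exp ((1 - ε / 8) * c') ∧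
          Rlz (gle E) k) := by
        refine Pr_mono hp0 hp1 ?_
        rintro E ⟨k, hk, hkR⟩
        refine ⟨k, ?_, hkR⟩
        exact ((Nat.le_floor_iff (Real.exp_pos _).le).1 hk).trans (Real.exp_le_exp.2 hexp)
    _ ≤ η' := by
        have := hN1 m hmN c' hc'4 hc'5
        rwa [hpc] at this

end Pool.Agent.H903.RL.LbAll
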